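import Pool.Agent.QCT.Main
import Pool.Agent.QCT.Uniq

/-!
# MP_7c50a9_lc: counting connected components of sets defined by few quadratic inequalities

One algorithm which for every real closed field `R`, all `k ≥ 2`, `ℓ ≥ 1` and all polynomials
`P_1, ..., P_ℓ` of degree at most two in `k` variables over `R` computes the number of
semialgebraically connected components of `{P_1 ≥ 0, ..., P_ℓ ≥ 0}` (and of `{P_1 ≤ 0, ...,
P_ℓ ≤ 0}`) with at most `k ^ (C ℓ)` ring operations and sign determinations.
-/

namespace Pool.Agent.Results.MP_7c50a9_lc.Algorithm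

open MvPolynomial

universe u

/-! ## The model of computation -/

/-- Operands: `Sum.inl i` is register number `i`, `Sum.inr z` is the integer constant `z`. -/
abbrev Opd := ℕ ⊕ ℤ

/-- Instructions. `Sum.inl b`: stop with output `b`. `Sum.inr (o, u, v)`: for `o = 0, 1, 2`
compute `u + v`, `u - v`, `u * v` and store the result in a new register; for `o = 3` determine the
sign of `u`. -/
abbrev Ins := ℕ ⊕ (Fin 4 × Opd × Opd)

section Model

variable {R : Type u} [Field R] [LinearOrder R]

/-- The value of an operand; `r` is the list of the registers. -/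
def opv (r : List R) : Opd → R
  | .inl i => r.getD i 0
  | .inr z => z

/-- The result of a ring operation. -/
def res (r : List R) (o : Fin 4) (u v : Opd) : R :=
  if o = 0 then opv r u + opv r v else if o = 1 then opv r u - opv r v else opv r u * opv r v

/-- The sign of an element, as an integer. -/
def sgn (a : R) : ℤ := if a < 0 then -1 else if a = 0 then 0 else 1

/-- Execution of the strategy `A` with at most `t` ring operations and sign determinations; the
result is the output, or `none` if the strategy does not stop after `t` of them. `r` is the list of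
the registers. The next instruction `A h` depends only on the history `h`: its entries are, for
each step, the sign (`-1`, `0` or `1`) found by a sign determination, and `0` for a ring
operation. -/
def exec (A : List ℤ → Ins) : ℕ → List R → List ℤ → Option ℕ
  | 0, _, h => match A h with
    | .inl b => some b
    | .inr _ => none
  | t + 1, r, h => match A h with
    | .inl b => some b
    | .inr (o, u, v) =>
      if o = 3 then exec A t r (h ++ [sgn (opv r u)])
      else exec A t (r ++ [res r o u v]) (h ++ [0])

/-! ## The input -/

/-- The exponent of `X_i` for `i < k`; `X_k` is read as `1`. -/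
noncomputable def expo (k i : ℕ) : Fin k →₀ ℕ := if h : i < k then Finsupp.single ⟨i, h⟩ 1 else 0

/-- The input: for all `m` and all `i, j ≤ k` the coefficient of `X_i X_j` in `P_m`, where `X_k`
is read as `1`. -/
noncomputable def inputs {k l : ℕ} (P : Fin l → MvPolynomial (Fin k) R) : List R :=
  (List.finRange l).flatMap fun m => (List.range (k + 1)).flatMap fun i =>
    (List.range (k + 1)).map fun j => (P m).coeff (expo k i + expo k j)

/-! ## Semialgebraically connected components -/

variable {k : ℕ}

/-- Semialgebraic subsets of `R ^ k`. -/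
inductive SA : Set (Fin k → R) → Prop
  | pos (p : MvPolynomial (Fin k) R) : SA {y | 0 < eval y p}
  | compl {S : Set (Fin k → R)} : SA S → SA Sᶜ
  | union {S T : Set (Fin k → R)} : SA S → SA T → SA (S ∪ T)

/-- `U` is open in `S` (used for `U ⊆ S`). -/
def OpenIn (S U : Set (Fin k → R)) : Prop :=
  ∀ y ∈ U, ∃ ε > 0, ∀ z ∈ S, (∀ i, |z i - y i| < ε) → z ∈ U

/-- Semialgebraically connected: not the union of two disjoint nonempty semialgebraic sets which
are open in it. -/
def SAConn (S : Set (Fin k → R)) : Prop :=
  ∀ U V, SA U → SA V → U ∪ V = S → Disjoint U V → OpenIn S U → OpenIn S V → U = ∅ ∨ V = ∅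

/-- `S` has exactly `b` semialgebraically connected components: `S` is the disjoint union of `b`
nonempty semialgebraically connected semialgebraic sets which are open in `S`. -/
def HasComps (S : Set (Fin k → R)) (b : ℕ) : Prop :=
  ∃ D : Fin b → Set (Fin k → R),
    (∀ i, SA (D i) ∧ (D i).Nonempty ∧ SAConn (D i) ∧ OpenIn S (D i)) ∧
    (∀ i j, i ≠ j → Disjoint (D i) (D j)) ∧ ⋃ i, D i = S

/-- The set defined by the input: all `P_i ≥ 0` if `s` is true, all `P_i ≤ 0` otherwise. -/
def SetOf (s : Bool) {l : ℕ} (P : Fin l → MvPolynomial (Fin k) R) : Set (Fin k → R) :=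
  {y | ∀ i, if s then 0 ≤ eval y (P i) else eval y (P i) ≤ 0}

/-! ## Conversions -/

lemma opv_eq (r : List R) (u : Opd) : opv r u = QCT.opv r u := by
  cases u <;> rfl

lemma sgn_eq (a : R) : sgn a = QCT.zs (SignType.sign a) := by
  unfold sgn QCT.zs
  rcases lt_trichotomy a 0 with h | h | h
  · rw [if_pos h, sign_neg h]
    rfl
  · rw [if_neg (by rw [h]; exact lt_irrefl _), if_pos h, h, sign_zero]
    rfl
  · rw [if_neg h.le.not_gt, if_neg h.ne', sign_pos h]
    rfl

lemma exec_eq (A : List ℤ → Ins) (t : ℕ) : ∀ (r : List R) (h : List ℤ),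
    exec A t r h = QCT.exec A t r h := by
  induction t with
  | zero =>
    intro r h
    unfold exec QCT.exec
    rcases A h with b | ⟨o, u, v⟩ <;> rfl
  | succ t ih =>
    intro r h
    unfold exec QCT.exec
    rcases A h with b | ⟨o, u, v⟩
    · rfl
    · simp only [ih, opv_eq, sgn_eq, res, QCT.res]

lemma sa_iff {S : Set (Fin k → R)} : SA S ↔ QCT.SA S := by
  constructor
  · intro h
    induction h with
    | pos p => exact QCT.SA.pos p
    | compl _ ih => exact ih.compl
    | union _ _ ih1 ih2 => exact ih1.union ih2
  · intro h
    induction h with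
    | pos p => exact SA.pos p
    | compl _ ih => exact ih.compl
    | union _ _ ih1 ih2 => exact ih1.union ih2

lemma saConn_iff {S : Set (Fin k → R)} : SAConn S ↔ QCT.SAConn S := by
  unfold SAConn QCT.SAConn
  simp only [sa_iff]
  exact Iff.rfl

lemma hasComps_iff {S : Set (Fin k → R)} {b : ℕ} : HasComps S b ↔ QCT.HasComps S b := by
  unfold HasComps QCT.HasComps
  simp only [sa_iff, saConn_iff]
  exact Iff.rfl

end Model

/-- **Positive answer to Q2 (hence to Q1), for every real closed field.** There are a constant `C`
and a computable strategy `A` such that for all `k ≥ 2`, `ℓ ≥ 1`, all real closed fields `R` and all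
polynomials `P_1, ..., P_ℓ` of degree at most two in `k` variables over `R`, the strategy stops after
at most `k ^ (C ℓ)` ring operations and sign determinations, with output `b`, the number of
semialgebraically connected components of the set; for `R = ℝ` this is the number of connected
components. -/
theorem result : ∃ (C : ℕ) (A : Bool × ℕ × ℕ × List ℤ → Ins), Computable A ∧
    ∀ (s : Bool) (k l : ℕ), 2 ≤ k → 1 ≤ l →
      (∀ (R : Type u) [Field R] [LinearOrder R] [IsStrictOrderedRing R] [IsRealClosed R]
        (P : Fin l → MvPolynomial (Fin k) R), (∀ i, (P i).totalDegree ≤ 2) →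
        ∃ b, exec (fun h => A (s, k, l, h)) (k ^ (C * l)) (inputs P) [] = some b ∧
          HasComps (SetOf s P) b ∧ ∀ b', HasComps (SetOf s P) b' → b' = b) ∧
      (∀ P : Fin l → MvPolynomial (Fin k) ℝ, (∀ i, (P i).totalDegree ≤ 2) →
        Finite (ConnectedComponents (SetOf s P)) ∧
        exec (fun h => A (s, k, l, h)) (k ^ (C * l)) (inputs P) [] =
          some (Nat.card (ConnectedComponents (SetOf s P)))) := by
  obtain ⟨C, A, hA, h⟩ := QCT.main.{u}
  refine ⟨C, A, hA, fun s k l hk hl => ⟨?_, ?_⟩⟩
  · intro R _ _ _ _ P hP
    obtain ⟨b, h1, h2⟩ := (h s k l hk hl).1 R P hP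
    refine ⟨b, ?_, hasComps_iff.2 h2, fun b' hb' => (hasComps_iff.1 hb').unique h2⟩
    rw [exec_eq]
    exact h1
  · intro P hP
    obtain ⟨b, h1, h2, h3⟩ := (h s k l hk hl).2 P hP
    refine ⟨h2, ?_⟩
    rw [exec_eq]
    exact h1.trans (congrArg some h3.symm)

end Pool.Agent.Results.MP_7c50a9_lc.Algorithm
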